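import Mathlib
import Pool.Agent.H75.LR.Stm3

/-! Module CM: comparison of a metric with the metric induced by an immersion. -/

open scoped Topology ContDiff Manifold
open Set Filter Metric Pool.Agent.H826R2.WStmt Pool.Agent.W671.RStmt
open Pool.Agent.H75.PRStmt Pool.Agent.H75.PR Pool.Agent.H75.LR

noncomputable section

set_option maxSynthPendingDepth 3
set_option linter.unusedSectionVars false

namespace Pool.Agent.H23.LR

universe u v

lemma cmp_local {E : Type*} [NormedAddCommGroup E] [NormedSpace ℝ E] [FiniteDimensional ℝ E]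
    {K : Set E} (hK : IsCompact K) (q₁ q₂ : E → E → ℝ)
    (h₁ : ContinuousOn (fun z : E × E => q₁ z.1 z.2) (K ×ˢ sphere (0 : E) 1))
    (h₂ : ContinuousOn (fun z : E × E => q₂ z.1 z.2) (K ×ˢ sphere (0 : E) 1))
    (hom₁ : ∀ y (t : ℝ) u, q₁ y (t • u) = t ^ 2 * q₁ y u)
    (hom₂ : ∀ y (t : ℝ) u, q₂ y (t • u) = t ^ 2 * q₂ y u)
    (pos₂ : ∀ y ∈ K, ∀ u, u ≠ 0 → 0 < q₂ y u) :
    ∃ C : ℝ, 0 < C ∧ ∀ y ∈ K, ∀ u, q₁ y u ≤ C * q₂ y u := by
  have hcomp : IsCompact (K ×ˢ sphere (0 : E) 1) := hK.prod (isCompact_sphere 0 1)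
  have hne : ∀ z ∈ K ×ˢ sphere (0 : E) 1, 0 < q₂ z.1 z.2 := by
    intro z hz
    refine pos₂ _ hz.1 _ ?_
    intro h
    have h3 := hz.2
    rw [mem_sphere_zero_iff_norm, h, norm_zero] at h3
    exact zero_ne_one h3
  have hcont : ContinuousOn (fun z : E × E => q₁ z.1 z.2 / q₂ z.1 z.2)
      (K ×ˢ sphere (0 : E) 1) := h₁.div h₂ fun z hz => (hne z hz).ne'
  obtain ⟨C, hC⟩ := hcomp.exists_bound_of_continuousOn hcont
  refine ⟨|C| + 1, by positivity, fun y hy u => ?_⟩
  by_cases hu : u = 0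
  · subst hu
    have e1 := hom₁ y 0 0
    have e2 := hom₂ y 0 0
    simp only [zero_smul, ne_eq, OfNat.ofNat_ne_zero, not_false_eq_true, zero_pow, zero_mul] at e1 e2
    rw [e1, e2, mul_zero]
  · have hu' : 0 < ‖u‖ := norm_pos_iff.2 hu
    set w : E := ‖u‖⁻¹ • u with hw
    have huw : u = ‖u‖ • w := by rw [hw, smul_smul, mul_inv_cancel₀ hu'.ne', one_smul]
    have hws : w ∈ sphere (0 : E) 1 := by
      rw [mem_sphere_zero_iff_norm, hw, norm_smul, norm_inv, norm_norm, inv_mul_cancel₀ hu'.ne']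
    have hz : (y, w) ∈ K ×ˢ sphere (0 : E) 1 := ⟨hy, hws⟩
    have h3 := hC (y, w) hz
    have h4 := hne (y, w) hz
    rw [Real.norm_eq_abs, abs_le] at h3
    have h5 : q₁ y w ≤ (|C| + 1) * q₂ y w := by
      have h6 : q₁ y w / q₂ y w ≤ |C| + 1 := by
        have := le_abs_self C
        linarith [h3.2]
      exact (div_le_iff₀ h4).1 h6
    rw [huw, hom₁, hom₂]
    calc ‖u‖ ^ 2 * q₁ y w ≤ ‖u‖ ^ 2 * ((|C| + 1) * q₂ y w) :=
          mul_le_mul_of_nonneg_left h5 (by positivity)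
      _ = (|C| + 1) * (‖u‖ ^ 2 * q₂ y w) := by ring

theorem cm : S_CM.{u, v} := by
  intro E _ _ _ M _ _ _ _ _ h hcont hpos m e he
  have hsm := he.smooth
  have hloc : ∀ p : M, ∃ C : ℝ, 0 < C ∧ ∀ᶠ x in 𝓝 p, ∀ v : E,
      ‖D (E := E) (E' := EuclideanSpace ℝ (Fin m)) e x v‖ ^ 2 ≤ C * bev (h x) v v ∧
      bev (h x) v v ≤ C * ‖D (E := E) (E' := EuclideanSpace ℝ (Fin m)) e x v‖ ^ 2 := by
    intro p
    obtain ⟨r, hr, hball⟩ := Metric.nhds_basis_closedBall.mem_iff.1
      ((isOpen_extChartAt_target (I := 𝓘(ℝ, E)) p).mem_nhds (mem_extChartAt_target p))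
    set K : Set E := closedBall (ch E p p) r with hK
    have hKc : IsCompact K := isCompact_closedBall _ _
    set A : E → E →L[ℝ] EuclideanSpace ℝ (Fin m) := fun y => fderiv ℝ (e ∘ (ch E p).symm) y with hA
    have hAc : ContinuousOn A (ch E p).target :=
      (contDiffOn_imm hsm).continuousOn_fderiv_of_isOpen (isOpen_extChartAt_target p) (by simp)
    have c1 : ContinuousOn (fun z : E × E => cBil h p z.1 z.2 z.2) (K ×ˢ sphere (0 : E) 1) := by
      have h1 : ContinuousOn (fun z : E × E => cBil h p z.1) (K ×ˢ sphere (0 : E) 1) :=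
        (hcont p).comp continuousOn_fst fun z hz => hball hz.1
      exact (h1.clm_apply continuousOn_snd).clm_apply continuousOn_snd
    have c2 : ContinuousOn (fun z : E × E => ‖A z.1 z.2‖ ^ 2) (K ×ˢ sphere (0 : E) 1) := by
      have h1 : ContinuousOn (fun z : E × E => A z.1) (K ×ˢ sphere (0 : E) 1) :=
        hAc.comp continuousOn_fst fun z hz => hball hz.1
      exact (h1.clm_apply continuousOn_snd).norm.pow 2
    have hom1 : ∀ y (t : ℝ) u, cBil h p y (t • u) (t • u) = t ^ 2 * cBil h p y u u := by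
      intro y t u
      simp only [map_smul, smul_apply, smul_eq_mul]
      ring
    have hom2 : ∀ y (t : ℝ) u, ‖A y (t • u)‖ ^ 2 = t ^ 2 * ‖A y u‖ ^ 2 := by
      intro y t u
      rw [map_smul, norm_smul, mul_pow, Real.norm_eq_abs, sq_abs]
    have hy_inj : ∀ y ∈ K, ∀ u : E, u ≠ 0 → Dsy E p y u ≠ 0 := fun y hy u hu h0 =>
      hu (Dsy_injective (hball hy) h0)
    have pos1 : ∀ y ∈ K, ∀ u, u ≠ 0 → 0 < cBil h p y u u := fun y hy u hu =>
      hpos _ _ (hy_inj y hy u hu)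
    have pos2 : ∀ y ∈ K, ∀ u, u ≠ 0 → 0 < ‖A y u‖ ^ 2 := by
      intro y hy u hu
      have h1 : A y u ≠ 0 := by
        rw [hA]
        simp only
        rw [fderiv_imm hsm (hball hy)]
        intro h0
        have h2 := he.immersion ((ch E p).symm y)
        exact hy_inj y hy u hu (h2 (by rw [h0, map_zero]))
      positivity
    obtain ⟨C₁, hC₁, h3⟩ := cmp_local hKc (fun y u => ‖A y u‖ ^ 2) (fun y u => cBil h p y u u)
      c2 c1 hom2 hom1 pos1
    obtain ⟨C₂, hC₂, h4⟩ := cmp_local hKc (fun y u => cBil h p y u u) (fun y u => ‖A y u‖ ^ 2)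
      c1 c2 hom1 hom2 pos2
    refine ⟨max C₁ C₂, lt_max_of_lt_left hC₁, ?_⟩
    have hU : (ch E p) ⁻¹' K ∈ 𝓝 p :=
      (continuousAt_extChartAt (I := 𝓘(ℝ, E)) p).preimage_mem_nhds (closedBall_mem_nhds _ hr)
    filter_upwards [hU, extChartAt_source_mem_nhds (I := 𝓘(ℝ, E)) p] with x hx hxs v
    have hxK : ch E p x ∈ K := hx
    have hxt : ch E p x ∈ (ch E p).target := (ch E p).map_source hxs
    set w : E := D (E := E) (E' := E) (ch E p) x v with hw
    have hv : Dsy E p (ch E p x) w = v := D_symm_chart hxs v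
    have e1 : A (ch E p x) w = D (E := E) (E' := EuclideanSpace ℝ (Fin m)) e x v := by
      rw [hA]
      simp only
      rw [fderiv_imm hsm hxt, hv, (ch E p).left_inv hxs]
    have e2 : cBil h p (ch E p x) w w = bev (h x) v v := by
      rw [cBil_apply, hv, (ch E p).left_inv hxs]
    have h5 := h3 _ hxK w
    have h6 := h4 _ hxK w
    rw [e1, e2] at h5 h6
    have h7 : 0 ≤ bev (h x) v v := by
      by_cases hv0 : v = 0
      · subst hv0
        unfold bev
        simp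
      · exact (hpos x v hv0).le
    exact ⟨h5.trans (mul_le_mul_of_nonneg_right (le_max_left _ _) h7),
      h6.trans (mul_le_mul_of_nonneg_right (le_max_right _ _) (sq_nonneg _))⟩
  choose C hC hU using hloc
  obtain ⟨t, ht⟩ := CompactSpace.elim_nhds_subcover (fun p => {x | ∀ v : E,
      ‖D (E := E) (E' := EuclideanSpace ℝ (Fin m)) e x v‖ ^ 2 ≤ C p * bev (h x) v v ∧
      bev (h x) v v ≤ C p * ‖D (E := E) (E' := EuclideanSpace ℝ (Fin m)) e x v‖ ^ 2}) hU
  refine ⟨∑ p ∈ t, C p + 1, ?_, fun x v => ?_⟩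
  · have : 0 ≤ ∑ p ∈ t, C p := Finset.sum_nonneg fun p _ => (hC p).le
    linarith
  · have hx : x ∈ ⋃ p ∈ t, {x | ∀ v : E,
      ‖D (E := E) (E' := EuclideanSpace ℝ (Fin m)) e x v‖ ^ 2 ≤ C p * bev (h x) v v ∧
      bev (h x) v v ≤ C p * ‖D (E := E) (E' := EuclideanSpace ℝ (Fin m)) e x v‖ ^ 2} := by
      rw [ht]; trivial
    rw [mem_iUnion₂] at hx
    obtain ⟨p, hp, hx⟩ := hx
    have h1 : C p ≤ ∑ p ∈ t, C p + 1 := by
      have := Finset.single_le_sum (f := C) (fun p _ => (hC p).le) hp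
      linarith
    have h7 : 0 ≤ bev (h x) v v := by
      by_cases hv0 : v = 0
      · subst hv0
        unfold bev
        simp
      · exact (hpos x v hv0).le
    exact ⟨(hx v).1.trans (mul_le_mul_of_nonneg_right h1 h7),
      (hx v).2.trans (mul_le_mul_of_nonneg_right h1 (sq_nonneg _))⟩

end Pool.Agent.H23.LR
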