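import Mathlib
import Pool.Agent.H75.LR.Stm3
import Pool.Agent.H75.PR.Fin
import Pool.Graph.R_seed8.Helper186.Moser

/-! Module RD: reduction to `g (R, ·) = α`. -/

open scoped Topology ContDiff Manifold
open Set Filter Metric Bundle Pool.Agent.H826R2.WStmt Pool.Agent.W671.RStmt
open Pool.Agent.H75.PRStmt Pool.Agent.H75.PR Pool.Agent.H75.LR Pool.Agent.W671 Pool.Agent.H826R2

noncomputable section

set_option maxSynthPendingDepth 3
set_option linter.unusedSectionVars false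

namespace Pool.Agent.H23.LR

universe u v

section algebra

variable {E : Type*} [NormedAddCommGroup E] [NormedSpace ℝ E]

lemma bev_add_left (b : Bil E) (x y z : E) : bev b (x + y) z = bev b x z + bev b y z := by
  show (show E →L[ℝ] E →L[ℝ] ℝ from b) (x + y) z = _
  rw [map_add]; rfl

lemma bev_smul_left (b : Bil E) (s : ℝ) (x z : E) : bev b (s • x) z = s * bev b x z := by
  show (show E →L[ℝ] E →L[ℝ] ℝ from b) (s • x) z = _
  rw [map_smul]; rfl

lemma bev_add_right (b : Bil E) (x y z : E) : bev b z (x + y) = bev b z x + bev b z y :=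
  map_add ((show E →L[ℝ] E →L[ℝ] ℝ from b) z) x y

lemma bev_smul_right (b : Bil E) (s : ℝ) (x z : E) : bev b z (s • x) = s * bev b z x :=
  map_smul ((show E →L[ℝ] E →L[ℝ] ℝ from b) z) s x

lemma ev_add (a : Cov E) (x y : E) : ev a (x + y) = ev a x + ev a y :=
  map_add (show E →L[ℝ] ℝ from a) x y

lemma ev_smul (a : Cov E) (s : ℝ) (x : E) : ev a (s • x) = s * ev a x :=
  map_smul (show E →L[ℝ] ℝ from a) s x

/-- the new bilinear form -/
def newB (b : Bil E) (a : Cov E) (r : E) : Bil E :=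
  ((show E →L[ℝ] E →L[ℝ] ℝ from b) -
    (bev b r r)⁻¹ • ContinuousLinearMap.smulRight ((show E →L[ℝ] E →L[ℝ] ℝ from b) r)
      ((show E →L[ℝ] E →L[ℝ] ℝ from b) r) +
    ContinuousLinearMap.smulRight (show E →L[ℝ] ℝ from a) (show E →L[ℝ] ℝ from a) :
    E →L[ℝ] E →L[ℝ] ℝ)

lemma newB_apply (b : Bil E) (a : Cov E) (r u v : E) :
    bev (newB b a r) u v = bev b u v - (bev b r r)⁻¹ * (bev b r u * bev b r v) +
      ev a u * ev a v := rfl

variable {b : Bil E} {a : Cov E} {r : E} (hs : ∀ u v, bev b u v = bev b v u) (ha : ev a r = 1)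
  (hr : 0 < bev b r r)

/-- the orthogonal projection -/
def pj (b : Bil E) (r u : E) : E := u + (-(bev b r u * (bev b r r)⁻¹)) • r

include hs hr in
lemma pj_perp (u : E) : bev b r (pj b r u) = 0 := by
  rw [pj, bev_add_right, bev_smul_right]
  field_simp
  ring

include hs hr in
lemma newB_pj (u v : E) : bev (newB b a r) u v = bev b (pj b r u) (pj b r v) + ev a u * ev a v := by
  rw [newB_apply, pj, pj, bev_add_left, bev_add_right, bev_add_right, bev_smul_left,
    bev_smul_left, bev_smul_right, bev_smul_right, hs u r]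
  field_simp
  ring

include hs hr in
lemma pj_r : pj b r r = 0 := by
  rw [pj, mul_inv_cancel₀ hr.ne']
  simp

include hs hr in
lemma pj_of_perp {w : E} (h : bev b r w = 0) : pj b r w = w := by
  rw [pj, h]
  simp

include hs hr in
lemma pj_add_smul (w : E) (c : ℝ) : pj b r (w + c • r) = pj b r w := by
  rw [pj, pj, bev_add_right, bev_smul_right]
  have : -((bev b r w + c * bev b r r) * (bev b r r)⁻¹) = -(bev b r w * (bev b r r)⁻¹) - c := by
    field_simp
    ring
  rw [this, sub_smul]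
  abel

include hs hr in
lemma newB_r (ha : ev a r = 1) (u : E) : bev (newB b a r) r u = ev a u := by
  rw [newB_apply, ha]
  field_simp
  ring

include hs hr ha in
lemma newB_nondeg (hn : ∀ u, (∀ v, bev b u v = 0) → u = 0) {u : E}
    (h : ∀ v, bev (newB b a r) u v = 0) : u = 0 := by
  have h1 : ev a u = 0 := by
    have h2 := h r
    rw [newB_pj hs hr, pj_r hs hr, ha] at h2
    have h3 : bev b (pj b r u) 0 = 0 := by
      have := bev_smul_right b 0 0 (pj b r u)
      rw [zero_smul, zero_mul] at this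
      exact this
    rw [h3] at h2
    linarith
  have h2 : pj b r u = 0 := by
    apply hn
    intro v
    have h3 := h v
    rw [newB_pj hs hr, h1, zero_mul, add_zero] at h3
    have h4 : v = pj b r v + (bev b r v * (bev b r r)⁻¹) • r := by
      rw [pj, neg_smul]
      abel
    rw [h4, bev_add_right, bev_smul_right, h3, hs (pj b r u) r, pj_perp hs hr]
    ring
  have h3 : u = (bev b r u * (bev b r r)⁻¹) • r := by
    rw [pj, neg_smul] at h2
    exact add_neg_eq_zero.1 h2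
  rw [h3, ev_smul, ha, mul_one] at h1
  rw [h3, h1, zero_smul]

include hs hr ha in
lemma newB_lorentz [FiniteDimensional ℝ E] (hL : IsLorentz b) : IsLorentz (newB b a r) := by
  obtain ⟨w₁, hw₁, hpos₁⟩ := hL
  set w₀ := pj b r w₁ with hw₀
  have h1 : bev b w₀ w₀ < 0 := by
    have e : bev b w₀ w₀ = bev b w₁ w₁ - (bev b r r)⁻¹ * (bev b r w₁ * bev b r w₁) := by
      have h2 := newB_pj (a := (0 : E →L[ℝ] ℝ)) hs hr w₁ w₁
      rw [newB_apply] at h2
      have h3 : ev (E := E) (0 : E →L[ℝ] ℝ) w₁ = 0 := rfl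
      rw [h3] at h2
      linarith
    rw [e]
    have : 0 ≤ (bev b r r)⁻¹ * (bev b r w₁ * bev b r w₁) := by
      have := mul_self_nonneg (bev b r w₁)
      positivity
    linarith
  have h2 : bev b r w₀ = 0 := pj_perp hs hr w₁
  have hpw₀ : pj b r w₀ = w₀ := pj_of_perp hs hr h2
  set w := w₀ + (-(ev a w₀)) • r with hw
  have hpw : pj b r w = w₀ := by rw [hw, pj_add_smul hs hr, hpw₀]
  have haw : ev a w = 0 := by rw [hw, ev_add, ev_smul, ha]; ring
  refine ⟨w, ?_, ?_⟩
  · rw [newB_pj hs hr, hpw, haw]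
    linarith
  · intro u hu huw
    rw [newB_pj hs hr, hpw, haw, mul_zero, add_zero] at huw
    rw [newB_pj hs hr]
    by_cases hpu : pj b r u = 0
    · have h3 : u = (bev b r u * (bev b r r)⁻¹) • r := by
        rw [pj, neg_smul] at hpu
        exact add_neg_eq_zero.1 hpu
      have h4 : bev b r u * (bev b r r)⁻¹ ≠ 0 := by
        intro h0
        rw [h0, zero_smul] at h3
        exact hu h3
      have h5 : ev a u = bev b r u * (bev b r r)⁻¹ := by
        conv_lhs => rw [h3]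
        rw [ev_smul, ha, mul_one]
      rw [hpu, h5]
      have h6 : bev b (0 : E) 0 = 0 := by
        have := bev_smul_right b 0 0 0
        rw [zero_smul, zero_mul] at this
        exact this
      rw [h6, zero_add]
      exact mul_self_pos.2 h4
    · have h3 : 0 < bev b (pj b r u) (pj b r u) := by
        set a' : Cov E := ((bev b w₀ w₀)⁻¹ • (show E →L[ℝ] E →L[ℝ] ℝ from b) w₀ : E →L[ℝ] ℝ) with ha'
        have ha'e : ∀ z, ev a' z = (bev b w₀ w₀)⁻¹ * bev b w₀ z := fun z => rfl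
        refine pos_of_causal (a := a') (r := w₀) hs ⟨w₁, hw₁, hpos₁⟩ ?_ h1.le hpu ?_ huw
        · rw [ha'e, inv_mul_cancel₀ h1.ne]
        · rw [ha'e, hs w₀ (pj b r u), huw, mul_zero]
      have := mul_self_nonneg (ev a u)
      linarith

end algebra

/-- the vector of an element of the tangent bundle -/
def fb {E : Type*} [NormedAddCommGroup E] [NormedSpace ℝ E] {M : Type*} [TopologicalSpace M]
    [ChartedSpace E M] (v : TangentBundle 𝓘(ℝ, E) M) : E := v.2

/-- **Module RD** -/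
theorem rd : S_RD.{u, v} := by
  intro E _ _ _ M _ _ _ _ _ α hα R hR Φ hΦ g hg hL hinv hpos
  have c : Wein.CD (toForm α) (fun x => (R x : TangentSpace 𝓘(ℝ, E) x)) := ⟨hα.toWein, hR.toWein⟩
  have hRF := rf_of hα hR hΦ
  have hRs : ContMDiff 𝓘(ℝ, E) 𝓘(ℝ, E).tangent ∞ (fun x => (⟨x, R x⟩ : TangentBundle 𝓘(ℝ, E) M)) :=
    WU.smooth_reeb c
  refine ⟨fun x => newB (g x) (α x) (R x), ⟨?_, ?_, ?_⟩, ?_, ?_, ?_⟩
  · intro x u v
    rw [newB_apply, newB_apply, hg.symm x u v]
    ring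
  · intro x u h
    exact newB_nondeg (hg.symm x) (hR.unit x) (hpos x) (hg.nondeg x) h
  · -- smoothness
    have hproj : ContMDiff 𝓘(ℝ, E).tangent 𝓘(ℝ, E) ∞
        (fun v : TangentBundle 𝓘(ℝ, E) M => v.1) := contMDiff_proj (TangentSpace 𝓘(ℝ, E))
    have hRp : ContMDiff 𝓘(ℝ, E).tangent 𝓘(ℝ, E).tangent ∞
        (fun v : TangentBundle 𝓘(ℝ, E) M => (⟨v.1, R v.1⟩ : TangentBundle 𝓘(ℝ, E) M)) :=
      hRs.comp hproj
    have hid : ContMDiff 𝓘(ℝ, E).tangent 𝓘(ℝ, E).tangent ∞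
        (fun v : TangentBundle 𝓘(ℝ, E) M => (⟨v.1, v.2⟩ : TangentBundle 𝓘(ℝ, E) M)) :=
      contMDiff_id
    have hadd : ContMDiff 𝓘(ℝ, E).tangent 𝓘(ℝ, E).tangent ∞
        (fun v : TangentBundle 𝓘(ℝ, E) M =>
          (⟨v.1, (show TangentSpace 𝓘(ℝ, E) v.1 from R v.1) + v.2⟩ : TangentBundle 𝓘(ℝ, E) M)) :=
      fun v => Helper186.contMDiffAt_add_along (f := fun v : TangentBundle 𝓘(ℝ, E) M => v.1)
        (v := fun v => (show TangentSpace 𝓘(ℝ, E) v.1 from R v.1)) (w := fun v => v.2) (hRp v) (hid v)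
    have f1 : ContMDiff 𝓘(ℝ, E).tangent 𝓘(ℝ, ℝ) ∞
        (fun v : TangentBundle 𝓘(ℝ, E) M => bev (g v.1) v.2 v.2) := hg.smooth
    have f2 : ContMDiff 𝓘(ℝ, E).tangent 𝓘(ℝ, ℝ) ∞
        (fun v : TangentBundle 𝓘(ℝ, E) M => bev (g v.1) (R v.1 + fb v) (R v.1 + fb v)) :=
      hg.smooth.comp hadd
    have f3 : ContMDiff 𝓘(ℝ, E).tangent 𝓘(ℝ, ℝ) ∞
        (fun v : TangentBundle 𝓘(ℝ, E) M => bev (g v.1) (R v.1) (R v.1)) :=
      hg.smooth.comp hRp
    have f4 : ContMDiff 𝓘(ℝ, E).tangent 𝓘(ℝ, ℝ) ∞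
        (fun v : TangentBundle 𝓘(ℝ, E) M => ev (α v.1) v.2) := hα.smooth
    have hf3 : ∀ v : TangentBundle 𝓘(ℝ, E) M, bev (g v.1) (R v.1) (R v.1) ≠ 0 := fun v =>
      (hpos v.1).ne'
    have hmain : ContMDiff 𝓘(ℝ, E).tangent 𝓘(ℝ, ℝ) ∞ (fun v : TangentBundle 𝓘(ℝ, E) M =>
        bev (g v.1) v.2 v.2 - (bev (g v.1) (R v.1) (R v.1))⁻¹ *
          (((bev (g v.1) (R v.1 + fb v) (R v.1 + fb v) - bev (g v.1) (R v.1) (R v.1) -
            bev (g v.1) v.2 v.2) * (1 / 2)) ^ 2) + ev (α v.1) v.2 ^ 2) := by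
      refine ContMDiff.add (ContMDiff.sub f1 (ContMDiff.mul (f3.inv₀ hf3) (ContMDiff.pow
        (ContMDiff.mul (ContMDiff.sub (ContMDiff.sub f2 f3) f1) contMDiff_const) 2)))
        (ContMDiff.pow f4 2)
    refine hmain.congr fun v => ?_
    have h1 : bev (g v.1) (R v.1 + fb v) (R v.1 + fb v) =
        bev (g v.1) (R v.1) (R v.1) + 2 * bev (g v.1) (R v.1) (fb v) + bev (g v.1) (fb v) (fb v) := by
      rw [bev_add_left, bev_add_right, bev_add_right, hg.symm v.1 (fb v) (R v.1)]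
      ring
    have h2 : bev (newB (g v.1) (α v.1) (R v.1)) v.2 v.2 =
        bev (g v.1) (fb v) (fb v) - (bev (g v.1) (R v.1) (R v.1))⁻¹ *
          (bev (g v.1) (R v.1) (fb v) * bev (g v.1) (R v.1) (fb v)) +
        ev (α v.1) (fb v) * ev (α v.1) (fb v) := newB_apply _ _ _ _ _
    rw [h1, h2]
    show _ = bev (g v.1) (fb v) (fb v) - (bev (g v.1) (R v.1) (R v.1))⁻¹ *
      ((bev (g v.1) (R v.1) (R v.1) + 2 * bev (g v.1) (R v.1) (fb v) + bev (g v.1) (fb v) (fb v) -
        bev (g v.1) (R v.1) (R v.1) - bev (g v.1) (fb v) (fb v)) * (1 / 2)) ^ 2 +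
      ev (α v.1) (fb v) ^ 2
    ring
  · intro x
    exact newB_lorentz (hg.symm x) (hR.unit x) (hpos x) (hL x)
  · intro t x u v
    have hRx := D_flow_R hRF x t
    have e1 : ∀ w, bev (g (Φ x t)) (R (Φ x t)) (D (E := E) (E' := E) (fun y => Φ y t) x w) =
        bev (g x) (R x) w := by
      intro w
      rw [← hRx]
      exact hinv t x (R x) w
    have e2 : ∀ w, ev (α (Φ x t)) (D (E := E) (E' := E) (fun y => Φ y t) x w) = ev (α x) w :=
      fun w => hRF.strict t x w
    have e3 : bev (g (Φ x t)) (R (Φ x t)) (R (Φ x t)) = bev (g x) (R x) (R x) := by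
      have := e1 (R x)
      rw [hRx] at this
      exact this
    rw [newB_apply, newB_apply, e1, e1, e2, e2, e3, hinv t x u v]
  · intro x u
    exact newB_r (hg.symm x) (hpos x) (hR.unit x) u

end Pool.Agent.H23.LR
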